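import Pool.Agent.H71.CO.Targets

/-!
# Row LAB: the labelling theorem
-/

set_option autoImplicit false

open Set

namespace Pool.Agent.H21.CO

open Pool.Agent.H71.CO

/-- a sequence which meets countably many requirements -/
theorem lab_seq {C : Type} (P : C → Prop) (R' : C → C → Prop) (R : ℕ → C → Prop) (a0 : C)
    (h0 : P a0) (h : ∀ n a, P a → ∃ b, P b ∧ R' a b ∧ R n b) :
    ∃ s : ℕ → C, (∀ n, P (s n)) ∧ (∀ n, R' (s n) (s (n + 1))) ∧ ∀ n, R n (s (n + 1)) := by
  choose! f hf using h
  let s : ℕ → C := fun n => Nat.rec a0 (fun k c => f k c) n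
  have hs : ∀ n, s (n + 1) = f n (s n) := fun n => rfl
  have hP : ∀ n, P (s n) := by
    intro n
    induction n with
    | zero => exact h0
    | succ n ih =>
      rw [hs]
      exact (hf n _ ih).1
  refine ⟨s, hP, fun n => ?_, fun n => ?_⟩
  · rw [hs]
    exact (hf n _ (hP n)).2.1
  · rw [hs]
    exact (hf n _ (hP n)).2.2

section

variable {U L : Type}

/-- finite partial labellings -/
structure Cn (A : U → U → Set L) (rev : L → L) (cap : U → L → ℕ∞)
    (a : U → U → Option L) : Prop where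
  fin : {z : U × U | a z.1 z.2 ≠ none}.Finite
  ne : ∀ u v l, a u v = some l → u ≠ v
  mem : ∀ u v l, a u v = some l → l ∈ A u v
  rev : ∀ u v l, a u v = some l → a v u = some (rev l)
  cap : ∀ u l, {v | a u v = some l}.encard ≤ cap u l

/-- extension -/
def Lx (a b : U → U → Option L) : Prop := ∀ u v l, a u v = some l → b u v = some l

theorem lx_refl (a : U → U → Option L) : Lx a a := fun _ _ _ h => h

theorem Lx.trans {a b c : U → U → Option L} (h : Lx a b) (h' : Lx b c) : Lx a c :=
  fun u v l k => h' u v l (h u v l k)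

variable {A : U → U → Set L} {rev : L → L} {cap : U → L → ℕ∞}

theorem Cn.row_fin {a : U → U → Option L} (ha : Cn A rev cap a) (u : U) :
    {v | a u v ≠ none}.Finite := by
  have h := ha.fin.preimage (f := fun v => (u, v)) (fun x _ y _ h => (Prod.mk.inj h).2)
  exact h.subset fun v hv => hv

theorem Cn.lab_fin {a : U → U → Option L} (ha : Cn A rev cap a) (u : U) :
    {l | ∃ v, a u v = some l}.Finite := by
  classical
  have h := (ha.row_fin u).image (fun v => a u v)
  have h2 := h.preimage (f := fun l : L => some l) (fun x _ y _ h => Option.some.inj h)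
  refine h2.subset ?_
  rintro l ⟨v, hv⟩
  refine ⟨v, ?_, hv⟩
  change a u v ≠ none
  rw [hv]
  exact Option.some_ne_none l

theorem Cn.cnt_fin {a : U → U → Option L} (ha : Cn A rev cap a) (u : U) (l : L) :
    {v | a u v = some l}.Finite := by
  refine (ha.row_fin u).subset fun v hv => ?_
  change a u v ≠ none
  rw [show a u v = some l from hv]
  exact Option.some_ne_none l

/-- one more label -/
theorem Cn.ext {a : U → U → Option L} (ha : Cn A rev cap a)
    (H1 : ∀ u v l, u ≠ v → l ∈ A u v → rev l ∈ A v u ∧ rev (rev l) = l ∧ 1 ≤ cap u l)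
    {u v : U} (huv : u ≠ v) (hn : a u v = none) {l : L} (hl : l ∈ A u v)
    (h1 : {w | a u w = some l}.encard < cap u l)
    (h2 : {w | a v w = some (rev l)}.encard < cap v (rev l)) :
    ∃ b, Cn A rev cap b ∧ Lx a b ∧ b u v = some l := by
  classical
  have hn' : a v u = none := by
    by_contra h
    obtain ⟨l', hl'⟩ := Option.ne_none_iff_exists'.1 h
    rw [ha.rev v u l' hl'] at hn
    exact Option.some_ne_none _ hn
  obtain ⟨hr1, hr2, _⟩ := H1 u v l huv hl
  let b : U → U → Option L := fun x y =>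
    if x = u ∧ y = v then some l else if x = v ∧ y = u then some (rev l) else a x y
  have hb1 : b u v = some l := by simp [b]
  have hb2 : b v u = some (rev l) := by simp [b, huv.symm]
  have hb3 : ∀ x y, ¬ (x = u ∧ y = v) → ¬ (x = v ∧ y = u) → b x y = a x y := by
    intro x y h3 h4
    simp only [b, if_neg h3, if_neg h4]
  have hLx : Lx a b := by
    intro x y l' h
    rw [hb3 x y, h]
    · rintro ⟨rfl, rfl⟩
      rw [hn] at h
      cases h
    · rintro ⟨rfl, rfl⟩
      rw [hn'] at h
      cases h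
  have hcase : ∀ x y l', b x y = some l' →
      (x = u ∧ y = v ∧ l' = l) ∨ (x = v ∧ y = u ∧ l' = rev l) ∨ a x y = some l' := by
    intro x y l' h
    by_cases h3 : x = u ∧ y = v
    · obtain ⟨rfl, rfl⟩ := h3
      rw [hb1] at h
      exact Or.inl ⟨rfl, rfl, (Option.some.inj h).symm⟩
    · by_cases h4 : x = v ∧ y = u
      · obtain ⟨rfl, rfl⟩ := h4
        rw [hb2] at h
        exact Or.inr (Or.inl ⟨rfl, rfl, (Option.some.inj h).symm⟩)
      · rw [hb3 x y h3 h4] at h
        exact Or.inr (Or.inr h)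
  refine ⟨b, ⟨?_, ?_, ?_, ?_, ?_⟩, hLx, hb1⟩
  · refine (ha.fin.union (Set.toFinite {(u, v), (v, u)})).subset ?_
    rintro ⟨x, y⟩ hxy
    by_cases h3 : x = u ∧ y = v
    · right
      simp [h3.1, h3.2]
    · by_cases h4 : x = v ∧ y = u
      · right
        simp [h4.1, h4.2]
      · left
        change a x y ≠ none
        rw [← hb3 x y h3 h4]
        exact hxy
  · intro x y l' h
    rcases hcase x y l' h with ⟨rfl, rfl, _⟩ | ⟨rfl, rfl, _⟩ | h
    · exact huv
    · exact huv.symm
    · exact ha.ne x y l' h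
  · intro x y l' h
    rcases hcase x y l' h with ⟨rfl, rfl, rfl⟩ | ⟨rfl, rfl, rfl⟩ | h
    · exact hl
    · exact hr1
    · exact ha.mem x y l' h
  · intro x y l' h
    rcases hcase x y l' h with ⟨rfl, rfl, rfl⟩ | ⟨rfl, rfl, rfl⟩ | h
    · exact hb2
    · rw [hr2]
      exact hb1
    · exact hLx y x _ (ha.rev x y l' h)
  · intro x l'
    by_cases h3 : x = u ∧ l' = l
    · obtain ⟨rfl, rfl⟩ := h3
      have hsub : {w | b x w = some l'} ⊆ insert v {w | a x w = some l'} := by
        intro w hw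
        rcases hcase x w l' hw with ⟨_, rfl, _⟩ | ⟨h4, _, _⟩ | h4
        · exact Or.inl rfl
        · exact absurd h4 huv
        · exact Or.inr h4
      exact (Set.encard_le_encard hsub).trans
        ((Set.encard_insert_le _ _).trans (Order.add_one_le_of_lt h1))
    · by_cases h4 : x = v ∧ l' = rev l
      · obtain ⟨rfl, rfl⟩ := h4
        have hsub : {w | b x w = some (rev l)} ⊆ insert u {w | a x w = some (rev l)} := by
          intro w hw
          rcases hcase x w _ hw with ⟨h5, _, _⟩ | ⟨_, rfl, _⟩ | h5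
          · exact absurd h5.symm huv
          · exact Or.inl rfl
          · exact Or.inr h5
        exact (Set.encard_le_encard hsub).trans
          ((Set.encard_insert_le _ _).trans (Order.add_one_le_of_lt h2))
      · refine le_trans (Set.encard_le_encard ?_) (ha.cap x l')
        intro w hw
        rcases hcase x w l' hw with ⟨h5, _, h6⟩ | ⟨h5, _, h6⟩ | h5
        · exact absurd ⟨h5, h6⟩ h3
        · exact absurd ⟨h5, h6⟩ h4
        · exact h5

/-- every pair can be labelled -/
theorem Cn.pair {a : U → U → Option L} (ha : Cn A rev cap a)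
    (H1 : ∀ u v l, u ≠ v → l ∈ A u v → rev l ∈ A v u ∧ rev (rev l) = l ∧ 1 ≤ cap u l)
    (H2 : ∀ u v, u ≠ v → (A u v).Infinite ∨ ∃ l ∈ A u v, cap u l = ⊤ ∧ cap v (rev l) = ⊤)
    {u v : U} (huv : u ≠ v) : ∃ b, Cn A rev cap b ∧ Lx a b ∧ ∃ l, b u v = some l := by
  by_cases hn : a u v = none
  · rcases H2 u v huv with hinf | ⟨l, hl, h1, h2⟩
    · have hf : ({l | ∃ w, a u w = some l} ∪ rev '' {l | ∃ w, a v w = some l}).Finite :=
        (ha.lab_fin u).union ((ha.lab_fin v).image rev)
      obtain ⟨l, hl, hl'⟩ := (hinf.sdiff hf).nonempty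
      obtain ⟨hr1, hr2, hr3⟩ := H1 u v l huv hl
      have e1 : {w | a u w = some l} = ∅ := by
        ext w
        simp only [mem_ofPred_eq, mem_empty_iff_false, iff_false]
        exact fun h => hl' (Or.inl ⟨w, h⟩)
      have e2 : {w | a v w = some (rev l)} = ∅ := by
        ext w
        simp only [mem_ofPred_eq, mem_empty_iff_false, iff_false]
        exact fun h => hl' (Or.inr ⟨rev l, ⟨w, h⟩, hr2⟩)
      obtain ⟨b, hb1, hb2, hb3⟩ := ha.ext H1 huv hn hl
        (by rw [e1, Set.encard_empty]; exact lt_of_lt_of_le zero_lt_one hr3)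
        (by
          rw [e2, Set.encard_empty]
          exact lt_of_lt_of_le zero_lt_one (H1 v u (rev l) huv.symm hr1).2.2)
      exact ⟨b, hb1, hb2, l, hb3⟩
    · obtain ⟨b, hb1, hb2, hb3⟩ := ha.ext H1 huv hn hl
        (by rw [h1]; exact (ha.cnt_fin u l).encard_lt_top)
        (by rw [h2]; exact (ha.cnt_fin v _).encard_lt_top)
      exact ⟨b, hb1, hb2, l, hb3⟩
  · obtain ⟨l, hl⟩ := Option.ne_none_iff_exists'.1 hn
    exact ⟨a, ha, lx_refl a, l, hl⟩

/-- every row can be filled -/
theorem Cn.fill {a : U → U → Option L} (ha : Cn A rev cap a)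
    (H1 : ∀ u v l, u ≠ v → l ∈ A u v → rev l ∈ A v u ∧ rev (rev l) = l ∧ 1 ≤ cap u l)
    (H3 : ∀ u v l, u ≠ v → l ∈ A u v → {w | w ≠ u ∧ l ∈ A u w}.Infinite)
    {u : U} {l : L} (hul : ∃ v, v ≠ u ∧ l ∈ A u v) (m : ℕ) (hm : (m : ℕ∞) ≤ cap u l) :
    ∃ b, Cn A rev cap b ∧ Lx a b ∧ (m : ℕ∞) ≤ {w | b u w = some l}.encard := by
  induction m with
  | zero => exact ⟨a, ha, lx_refl a, by simp⟩
  | succ m ih =>
    have hm' : (m : ℕ∞) ≤ cap u l := le_trans (by exact_mod_cast Nat.le_succ m) hm
    obtain ⟨b, hb1, hb2, hb3⟩ := ih hm'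
    by_cases hc : ((m + 1 : ℕ) : ℕ∞) ≤ {w | b u w = some l}.encard
    · exact ⟨b, hb1, hb2, hc⟩
    rw [not_le] at hc
    have hlt : {w | b u w = some l}.encard < cap u l := lt_of_lt_of_le hc hm
    obtain ⟨v0, hv0, hl0⟩ := hul
    have hinf := H3 u v0 l hv0.symm hl0
    have htf : {w | ∃ x, b w x ≠ none}.Finite := by
      refine (hb1.fin.image Prod.fst).subset ?_
      rintro w ⟨x, hx⟩
      exact ⟨(w, x), hx, rfl⟩
    obtain ⟨w, ⟨hwu, hwl⟩, hw⟩ := (hinf.sdiff htf).nonempty
    have hwn : ∀ x, b w x = none := by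
      intro x
      by_contra h
      exact hw ⟨x, h⟩
    have hun : b u w = none := by
      by_contra h
      obtain ⟨l', hl'⟩ := Option.ne_none_iff_exists'.1 h
      have h2 := hb1.rev u w l' hl'
      rw [hwn u] at h2
      cases h2
    obtain ⟨hr1, hr2, hr3⟩ := H1 u w l hwu.symm hwl
    obtain ⟨b', hb1', hb2', hb3'⟩ := hb1.ext H1 hwu.symm hun hwl hlt (by
      have e : {x | b w x = some (rev l)} = ∅ := by
        ext x
        simp [hwn x]
      rw [e, Set.encard_empty]
      exact lt_of_lt_of_le zero_lt_one (H1 w u (rev l) hwu hr1).2.2)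
    refine ⟨b', hb1', hb2.trans hb2', ?_⟩
    have hsub : insert w {x | b u x = some l} ⊆ {x | b' u x = some l} := by
      intro x hx
      rcases hx with rfl | hx
      · exact hb3'
      · exact hb2' u x l hx
    have hni : w ∉ {x | b u x = some l} := by
      intro h
      rw [mem_ofPred_eq, hun] at h
      cases h
    refine le_trans ?_ (Set.encard_le_encard hsub)
    rw [Set.encard_insert_of_notMem hni]
    push_cast
    gcongr

end

theorem pf_LAB : T_LAB := by
  intro U L _ _ _ A rev cap H1 H2 H3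
  rcases isEmpty_or_nonempty U with hU | hU
  · exact ⟨fun _ _ => Classical.arbitrary L, fun u => (hU.false u).elim,
      fun u => (hU.false u).elim⟩
  let R : (U × U) ⊕ (U × L × ℕ) → (U → U → Option L) → Prop := fun i b =>
    match i with
    | .inl z => z.1 ≠ z.2 → ∃ l, b z.1 z.2 = some l
    | .inr z => (∃ v, v ≠ z.1 ∧ z.2.1 ∈ A z.1 v) → (z.2.2 : ℕ∞) ≤ cap z.1 z.2.1 →
        (z.2.2 : ℕ∞) ≤ {w | b z.1 w = some z.2.1}.encard
  obtain ⟨c, hc⟩ := exists_surjective_nat ((U × U) ⊕ (U × L × ℕ))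
  have h0 : Cn A rev cap (fun _ _ => none) := by
    refine ⟨?_, fun _ _ _ h => ?_, fun _ _ _ h => ?_, fun _ _ _ h => ?_, fun u l => ?_⟩
    · simp
    · cases h
    · cases h
    · cases h
    · simp
  obtain ⟨s, hs1, hs2, hs3⟩ := lab_seq (Cn A rev cap) Lx (fun n b => R (c n) b) _ h0 (by
    intro n a ha
    rcases c n with z | z
    · by_cases hz : z.1 ≠ z.2
      · obtain ⟨b, h1, h2, h3⟩ := ha.pair H1 H2 hz
        exact ⟨b, h1, h2, fun _ => h3⟩
      · exact ⟨a, ha, lx_refl a, fun h => absurd h hz⟩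
    · by_cases hz : (∃ v, v ≠ z.1 ∧ z.2.1 ∈ A z.1 v) ∧ (z.2.2 : ℕ∞) ≤ cap z.1 z.2.1
      · obtain ⟨b, h1, h2, h3⟩ := ha.fill H1 H3 hz.1 z.2.2 hz.2
        exact ⟨b, h1, h2, fun _ _ => h3⟩
      · exact ⟨a, ha, lx_refl a, fun h h' => absurd ⟨h, h'⟩ hz⟩)
  have hreq : ∀ i, ∃ n, R i (s n) := by
    intro i
    obtain ⟨n, rfl⟩ := hc i
    exact ⟨n + 1, hs3 n⟩
  have hmono : ∀ m n, m ≤ n → Lx (s m) (s n) := by
    intro m n hmn
    induction hmn with
    | refl => exact lx_refl _
    | step _ ih => exact ih.trans (hs2 _)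
  have huniq : ∀ m n z w l l', s m z w = some l → s n z w = some l' → l = l' := by
    intro m n z w l l' h h'
    have h1 := hmono m (max m n) (le_max_left _ _) z w l h
    have h2 := hmono n (max m n) (le_max_right _ _) z w l' h'
    rw [h1] at h2
    exact Option.some.inj h2
  have hex : ∀ z w, ∃ l, (∀ k l', s k z w = some l' → l = l') ∧
      (z ≠ w → ∃ k, s k z w = some l) := by
    intro z w
    by_cases hzw : z ≠ w
    · obtain ⟨n, hn⟩ := hreq (Sum.inl (z, w))
      obtain ⟨l, hl⟩ := hn hzw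
      exact ⟨l, fun k l' h => huniq n k z w l l' hl h, fun _ => ⟨n, hl⟩⟩
    · exact ⟨Classical.arbitrary L, fun k l' h => absurd ((hs1 k).ne z w l' h) hzw,
        fun h => absurd h hzw⟩
  choose lab hl1 hl2 using hex
  refine ⟨lab, fun u v huv => ?_, fun u l hul => ?_⟩
  · obtain ⟨k, hk⟩ := hl2 u v huv
    exact ⟨(hs1 k).mem u v _ hk, hl1 v u k _ ((hs1 k).rev u v _ hk)⟩
  · apply le_antisymm
    · by_contra hlt
      rw [not_le] at hlt
      have hfin : cap u l ≠ ⊤ := ne_top_of_lt hlt
      have h5 : cap u l + 1 ≤ {v | v ≠ u ∧ lab u v = l}.encard := Order.add_one_le_of_lt hlt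
      obtain ⟨t, ht1, ht2⟩ := Set.exists_subset_encard_eq h5
      have htf : t.Finite := by
        rw [← Set.encard_ne_top_iff, ht2]
        intro h6
        apply hfin
        simpa using h6
      have h7 : ∀ w, ∃ k, w ∈ t → s k u w = some l := by
        intro w
        by_cases hw : w ∈ t
        · obtain ⟨hwu, hwl⟩ := ht1 hw
          obtain ⟨k, hk⟩ := hl2 u w hwu.symm
          refine ⟨k, fun _ => ?_⟩
          rw [hk, hwl]
        · exact ⟨0, fun h => absurd h hw⟩
      choose κ hκ using h7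
      obtain ⟨K, hK⟩ := (htf.image κ).bddAbove
      have h8 : t ⊆ {w | s K u w = some l} := by
        intro w hw
        exact hmono (κ w) K (hK ⟨w, hw, rfl⟩) u w l (hκ w hw)
      have h9 := (Set.encard_le_encard h8).trans ((hs1 K).cap u l)
      rw [ht2] at h9
      exact absurd h9 (not_le.2 ((ENat.lt_add_one_iff hfin).2 le_rfl))
    · rw [← ENat.forall_natCast_le_iff_le]
      intro m hm
      obtain ⟨n, hn⟩ := hreq (Sum.inr (u, l, m))
      refine le_trans (hn hul hm) (Set.encard_le_encard ?_)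
      intro w hw
      exact ⟨((hs1 n).ne u w l hw).symm, hl1 u w n l hw⟩

end Pool.Agent.H21.CO
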